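import Mathlib
import Pool.Agent.Lib.MP_1073f4_an.Defs
import Pool.Agent.Lib.MP_1073f4_an.Family
import Pool.Agent.Lib.MP_1073f4_an.OneDim.Final

set_option autoImplicit false

namespace Pool.Agent.Results.MP_1073f4_an.Complexity

open MeasureTheory Pool.Agent.Lib.MP_1073f4_an

/-- The descriptive complexity of `CPE ^ k (𝕋 ^ n)` inside `C ^ k (𝕋 ^ n, 𝕋 ^ n)` (uniform
topology), for all `1 ≤ k ≤ ∞` and `n ≥ 1`: it is Borel for `n = 1`; for `n ≥ 2` it is the trace of
a coanalytic subset of `C (𝕋 ^ n, 𝕋 ^ n)`, every coanalytic subset of every zero-dimensional Polish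
space is a continuous preimage of it, and it is not Borel. -/
theorem result (k : ℕ∞) (hk : 1 ≤ k) :
    MeasurableSet[borel (CkMaps 1 k)] {f | HasCPE (f : Torus 1 → Torus 1)} ∧
    ∀ n : ℕ, 2 ≤ n →
      AnalyticSet {f : C(Torus n, Torus n) | ¬ HasCPE (f : Torus n → Torus n)} ∧
      (∀ (X : Type) [TopologicalSpace X] [PolishSpace X],
        TopologicalSpace.IsTopologicalBasis {s : Set X | IsClopen s} →
        ∀ A : Set X, AnalyticSet Aᶜ →
          ∃ Φ : X → CkMaps n k, Continuous Φ ∧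
            ∀ x, x ∈ A ↔ HasCPE (Φ x : Torus n → Torus n)) ∧
      ¬ MeasurableSet[borel (CkMaps n k)] {f | HasCPE (f : Torus n → Torus n)} :=
  ⟨OneDim.borel_one k hk, fun n hn => ⟨OneDim.analytic_not_hasCPE,
    fun X _ _ hz A hA => OneDim.reduction_general
      (S := fun f : CkMaps n k => HasCPE (f : Torus n → Torus n)) (reduction hn k) X hz A hA,
    not_borel hn k⟩⟩

end Pool.Agent.Results.MP_1073f4_an.Complexity
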